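import Mathlib

/-!
Definitions and statements for the Weak Greedy Algorithm with respect to the bilinear
dictionary (MP_d1960f_an).
-/

namespace Pool.Agent.W172.WG

open MeasureTheory Filter Topology RealInnerProductSpace
open scoped ENNReal

/-- Lebesgue measure on `[0,1]`. -/
noncomputable def mu : Measure ℝ := (volume : Measure ℝ).restrict (Set.Icc 0 1)

/-- `L_2([0,1])`. -/
abbrev E : Type := Lp ℝ 2 mu

/-- `L_2([0,1]^2)`. -/
abbrev H : Type := Lp ℝ 2 (mu.prod mu)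

/-- The bilinear dictionary: all `g(x,y) = u(x) v(y)` with `u, v` in `L_2([0,1])`, `‖g‖ = 1`. -/
def Pi2 : Set H :=
  {g | ‖g‖ = 1 ∧ ∃ u v : E, (g : ℝ × ℝ → ℝ) =ᵐ[mu.prod mu] fun p => u p.1 * v p.2}

/-- `(f, φ)` is a realization of the Weak Greedy Algorithm with respect to the dictionary `D`
and the weakness sequence `t` (`t k` is the weakness parameter of step `k + 1`). -/
def IsRealization {K : Type*} [NormedAddCommGroup K] [InnerProductSpace ℝ K] (D : Set K)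
    (t : ℕ → ℝ) (f φ : ℕ → K) : Prop :=
  ∀ m, φ m ∈ D ∧ t m * (⨆ g : D, |⟪f m, (g : K)⟫|) ≤ |⟪f m, φ m⟫| ∧
    f (m + 1) = f m - ⟪f m, φ m⟫ • φ m

/-- The Weak Greedy Algorithm with weakness sequence `t` converges with respect to `D`: for
every starting element and every realization the residuals tend to zero in norm. -/
def Converges {K : Type*} [NormedAddCommGroup K] [InnerProductSpace ℝ K] (D : Set K)
    (t : ℕ → ℝ) : Prop :=
  ∀ f φ : ℕ → K, IsRealization D t f φ → Tendsto (fun m => ‖f m‖) atTop (𝓝 0)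

/-- `t k ≤ y k * (y 0 + ... + y k)` for a nonnegative square summable `y`. -/
def Dominated (t : ℕ → ℝ) : Prop :=
  ∃ y : ℕ → ℝ, (∀ k, 0 ≤ y k) ∧ Summable (fun k => y k ^ 2) ∧
    ∀ k, t k ≤ y k * ∑ j ∈ Finset.range (k + 1), y j

/-- Temlyakov's class `V`: there are `0 = q_0 < q_1 < ...` with
`∑_{s ≥ 1} 2^s / (q_s - q_{s-1}) < ∞` and `∑_{s ≥ 1} 2^{-s} ∑_{k ≤ q_s} t_k^2 < ∞`. -/
def ClassV (t : ℕ → ℝ) : Prop :=
  ∃ q : ℕ → ℕ, q 0 = 0 ∧ StrictMono q ∧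
    Summable (fun s : ℕ => (2 : ℝ) ^ (s + 1) / ((q (s + 1) : ℝ) - (q s : ℝ))) ∧
    Summable (fun s : ℕ => ((2 : ℝ) ^ (s + 1))⁻¹ * ∑ k ∈ Finset.range (q (s + 1)), t k ^ 2)

/-- Part V1. -/
def S_V1 : Prop :=
  ∀ t : ℕ → ℝ, (∀ k, 0 ≤ t k) → ClassV t → Dominated t

/-- Part V2. -/
def S_V2 : Prop :=
  ∀ t : ℕ → ℝ, (∀ k, 0 ≤ t k) → Dominated t → ClassV t

/-- Part MON. -/
def S_Mon : Prop :=
  ∀ t : ℕ → ℝ, (∀ k, 0 ≤ t k) → Antitone t →
    (Dominated t ↔ Summable (fun k : ℕ => t k / ((k : ℝ) + 1)))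

/-- Part SUF: convergence in every Hilbert space, for every bounded complete dictionary. -/
def S_Suf : Prop :=
  ∀ (K : Type) [NormedAddCommGroup K] [InnerProductSpace ℝ K] [CompleteSpace K] (D : Set K),
    (∀ g ∈ D, ‖g‖ = 1) → (∀ h : K, (∀ g ∈ D, ⟪h, g⟫ = 0) → h = 0) →
    ∀ t : ℕ → ℝ, (∀ k, 0 ≤ t k) → (∀ k, t k ≤ 1) → ¬ Dominated t → Converges D t

/-- Part L2: the tensor product map on `L_2([0,1])`, and completeness of the dictionary. -/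
def S_L2 : Prop :=
  (∃ T : E → E → H, (∀ a b c d : E, ⟪T a b, T c d⟫ = ⟪a, c⟫ * ⟪b, d⟫) ∧
    Pi2 = {g | ∃ u v : E, ‖u‖ = 1 ∧ ‖v‖ = 1 ∧ g = T u v}) ∧
  (∀ h : H, (∀ g ∈ Pi2, ⟪h, g⟫ = 0) → h = 0) ∧
  (∃ a : ℕ → E, Orthonormal ℝ a)

/-- Part NEC: divergence for an abstract tensor product dictionary. -/
def S_Nec : Prop :=
  ∀ (E K : Type) [NormedAddCommGroup E] [InnerProductSpace ℝ E]
    [NormedAddCommGroup K] [InnerProductSpace ℝ K] (T : E → E → K)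
    (_ : ∀ a b c d : E, ⟪T a b, T c d⟫ = ⟪a, c⟫ * ⟪b, d⟫) (a : ℕ → E) (_ : Orthonormal ℝ a)
    (t : ℕ → ℝ), (∀ k, 0 ≤ t k) → (∀ k, t k ≤ 1) → Dominated t →
    ¬ Converges {g : K | ∃ u v : E, ‖u‖ = 1 ∧ ‖v‖ = 1 ∧ g = T u v} t

/-- The answer. -/
def S_Main : Prop :=
  ∀ t : ℕ → ℝ, (∀ k, 0 ≤ t k) → (∀ k, t k ≤ 1) →
    (Converges Pi2 t ↔ ¬ ClassV t) ∧ (Converges Pi2 t ↔ ¬ Dominated t) ∧
    (Antitone t → (Converges Pi2 t ↔ ¬ Summable (fun k : ℕ => t k / ((k : ℝ) + 1))))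

theorem main_of (h1 : S_V1) (h2 : S_V2) (h3 : S_Mon) (h4 : S_Suf) (h5 : S_L2) (h6 : S_Nec) :
    S_Main := by
  intro t ht0 ht1
  have key : Converges Pi2 t ↔ ¬ Dominated t := by
    obtain ⟨⟨T, hT, hPi⟩, hc, a, ha⟩ := h5
    constructor
    · intro hconv hdom
      rw [hPi] at hconv
      exact h6 E H T hT a ha t ht0 ht1 hdom hconv
    · intro hnd
      exact h4 H Pi2 (fun g hg => hg.1) hc t ht0 ht1 hnd
  have hV : ClassV t ↔ Dominated t := ⟨h1 t ht0, h2 t ht0⟩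
  refine ⟨?_, key, ?_⟩
  · rw [key, hV]
  · intro hanti
    rw [key, h3 t ht0 hanti]

end Pool.Agent.W172.WG
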