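import Mathlib
import Pool.Agent.W172.WG.Defs

/-!
Splitting of a rank one element by small greedy steps: the configurations and one step.
-/

namespace Pool.Agent.W172.WG

open MeasureTheory Filter Topology RealInnerProductSpace

section bilin

variable {E K : Type*} [NormedAddCommGroup E] [InnerProductSpace ℝ E]
  [NormedAddCommGroup K] [InnerProductSpace ℝ K] {T : E → E → K}

theorem T_add_left (hT : ∀ a b c d : E, ⟪T a b, T c d⟫ = ⟪a, c⟫ * ⟪b, d⟫) (a a' b : E) :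
    T (a + a') b = T a b + T a' b := by
  rw [← sub_eq_zero, ← inner_self_eq_zero (𝕜 := ℝ)]
  simp only [inner_sub_left, inner_sub_right, inner_add_left, inner_add_right, hT]
  ring

theorem T_add_right (hT : ∀ a b c d : E, ⟪T a b, T c d⟫ = ⟪a, c⟫ * ⟪b, d⟫) (a b b' : E) :
    T a (b + b') = T a b + T a b' := by
  rw [← sub_eq_zero, ← inner_self_eq_zero (𝕜 := ℝ)]
  simp only [inner_sub_left, inner_sub_right, inner_add_left, inner_add_right, hT]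
  ring

theorem T_smul_left (hT : ∀ a b c d : E, ⟪T a b, T c d⟫ = ⟪a, c⟫ * ⟪b, d⟫) (r : ℝ) (a b : E) :
    T (r • a) b = r • T a b := by
  rw [← sub_eq_zero, ← inner_self_eq_zero (𝕜 := ℝ)]
  simp only [inner_sub_left, inner_sub_right, inner_smul_left, inner_smul_right, hT]
  simp
  ring

theorem T_smul_right (hT : ∀ a b c d : E, ⟪T a b, T c d⟫ = ⟪a, c⟫ * ⟪b, d⟫) (r : ℝ) (a b : E) :
    T a (r • b) = r • T a b := by
  rw [← sub_eq_zero, ← inner_self_eq_zero (𝕜 := ℝ)]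
  simp only [inner_sub_left, inner_sub_right, inner_smul_left, inner_smul_right, hT]
  simp
  ring

end bilin

/-- The block inequality. -/
theorem block_le (α1 α2 B X p q r s : ℝ) (hX : 0 < X)
    (h : 2 * (α1 ^ 2 + α2 ^ 2 + B ^ 2) ≤ X ^ 2) :
    |α1 * (p * r + q * s) + α2 * (q * r - p * s) + B * (p * r - q * s)| ≤
      X * (p ^ 2 + q ^ 2 + r ^ 2 + s ^ 2) / 2 := by
  apply abs_le_of_sq_le_sq _ (by positivity)
  set w1 := p * r + q * s with hw1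
  set w2 := q * r - p * s with hw2
  set w3 := p * r - q * s with hw3
  have h1 : (α1 * w1 + α2 * w2 + B * w3) ^ 2 ≤
      (α1 ^ 2 + α2 ^ 2 + B ^ 2) * (w1 ^ 2 + w2 ^ 2 + w3 ^ 2) := by
    nlinarith [sq_nonneg (α1 * w2 - α2 * w1), sq_nonneg (α1 * w3 - B * w1),
      sq_nonneg (α2 * w3 - B * w2)]
  have h2 : w1 ^ 2 + w2 ^ 2 + w3 ^ 2 ≤ 2 * ((p ^ 2 + q ^ 2) * (r ^ 2 + s ^ 2)) := by
    have : w1 ^ 2 + w2 ^ 2 = (p ^ 2 + q ^ 2) * (r ^ 2 + s ^ 2) := by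
      rw [hw1, hw2]; ring
    have h3 : w3 ^ 2 ≤ (p ^ 2 + q ^ 2) * (r ^ 2 + s ^ 2) := by
      rw [hw3]; nlinarith [sq_nonneg (p * s + q * r)]
    linarith
  have h3 : (α1 ^ 2 + α2 ^ 2 + B ^ 2) * (w1 ^ 2 + w2 ^ 2 + w3 ^ 2) ≤
      (X ^ 2 / 2) * (2 * ((p ^ 2 + q ^ 2) * (r ^ 2 + s ^ 2))) := by
    apply mul_le_mul (by linarith) h2 (by positivity) (by positivity)
  have h4 : (p ^ 2 + q ^ 2) * (r ^ 2 + s ^ 2) ≤ ((p ^ 2 + q ^ 2 + r ^ 2 + s ^ 2) / 2) ^ 2 := by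
    nlinarith [sq_nonneg (p ^ 2 + q ^ 2 - (r ^ 2 + s ^ 2))]
  calc (α1 * w1 + α2 * w2 + B * w3) ^ 2 ≤ X ^ 2 * ((p ^ 2 + q ^ 2) * (r ^ 2 + s ^ 2)) := by
        linarith
    _ ≤ X ^ 2 * ((p ^ 2 + q ^ 2 + r ^ 2 + s ^ 2) / 2) ^ 2 :=
        mul_le_mul_of_nonneg_left h4 (by positivity)
    _ = (X * (p ^ 2 + q ^ 2 + r ^ 2 + s ^ 2) / 2) ^ 2 := by ring

theorem exists_unit (α1 α2 d : ℝ) (h : d ^ 2 ≤ α1 ^ 2 + α2 ^ 2) :
    ∃ p1 p2 : ℝ, p1 ^ 2 + p2 ^ 2 = 1 ∧ α1 * p1 + α2 * p2 = d := by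
  by_cases h0 : α1 ^ 2 + α2 ^ 2 = 0
  · have h1 : α1 = 0 := by nlinarith [sq_nonneg α1, sq_nonneg α2]
    have h2 : α2 = 0 := by nlinarith [sq_nonneg α1, sq_nonneg α2]
    have h3 : d = 0 := by nlinarith [sq_nonneg d]
    exact ⟨1, 0, by norm_num, by rw [h1, h2, h3]; ring⟩
  · have hpos : 0 < α1 ^ 2 + α2 ^ 2 := lt_of_le_of_ne (by positivity) (Ne.symm h0)
    set R := α1 ^ 2 + α2 ^ 2 with hR
    set w := Real.sqrt (R - d ^ 2) with hw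
    have hw2 : w ^ 2 = R - d ^ 2 := Real.sq_sqrt (by linarith)
    refine ⟨(d * α1 - w * α2) / R, (d * α2 + w * α1) / R, ?_, ?_⟩
    · rw [div_pow, div_pow, ← add_div, div_eq_one_iff_eq (by positivity)]
      have : (d * α1 - w * α2) ^ 2 + (d * α2 + w * α1) ^ 2 = (d ^ 2 + w ^ 2) * R := by
        rw [hR]; ring
      rw [this, hw2]; ring
    · field_simp
      rw [hR]; ring

theorem exists_half (p1 p2 : ℝ) (h : p1 ^ 2 + p2 ^ 2 = 1) :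
    ∃ g k : ℝ, g ^ 2 + k ^ 2 = 1 ∧ g ^ 2 - k ^ 2 = p1 ∧ 2 * (g * k) = p2 := by
  by_cases h1 : p1 = -1
  · have h2 : p2 = 0 := by
      rw [h1] at h
      nlinarith [sq_nonneg p2]
    exact ⟨0, 1, by norm_num, by rw [h1]; norm_num, by rw [h2]; ring⟩
  · have hp : -1 < p1 := by
      have : -1 ≤ p1 := by nlinarith [sq_nonneg p2, sq_nonneg (p1 - 1)]
      exact lt_of_le_of_ne this (Ne.symm h1)
    have hpos : 0 < (1 + p1) / 2 := by linarith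
    set g := Real.sqrt ((1 + p1) / 2) with hg
    have hg0 : 0 < g := Real.sqrt_pos.mpr hpos
    have hg2 : g ^ 2 = (1 + p1) / 2 := Real.sq_sqrt hpos.le
    have hk : (p2 / (2 * g)) ^ 2 = (1 - p1) / 2 := by
      rw [div_pow, mul_pow, hg2]
      have : p2 ^ 2 = (1 - p1) * (1 + p1) := by nlinarith
      rw [div_eq_iff (by linarith), this]
      ring
    refine ⟨g, p2 / (2 * g), ?_, ?_, ?_⟩
    · rw [hg2, hk]; ring
    · rw [hg2, hk]; ring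
    · field_simp

/-- A configuration: nodes `j < n` with values `x j` and an active block on the indices
`i` and `n`. -/
structure Cfg (E : Type*) [NormedAddCommGroup E] [InnerProductSpace ℝ E] where
  n : ℕ
  i : ℕ
  hi : i < n
  b : ℕ → E
  hb : Orthonormal ℝ b
  x : ℕ → ℝ
  α1 : ℝ
  α2 : ℝ
  B : ℝ
  X : ℝ
  hx0 : ∀ j < n, 0 ≤ x j
  hxX : ∀ j < n, x j ≤ X
  hxi : x i = 0
  hB : 0 ≤ B
  hBα : B ^ 2 ≤ α1 ^ 2 + α2 ^ 2
  hα : 2 * (α1 ^ 2 + α2 ^ 2 + B ^ 2) ≤ X ^ 2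
  hX : 0 < X

namespace Cfg

variable {E K : Type*} [NormedAddCommGroup E] [InnerProductSpace ℝ E]
  [NormedAddCommGroup K] [InnerProductSpace ℝ K]

/-- The element of the big space given by a configuration. -/
noncomputable def f (T : E → E → K) (a : ℕ → E) (s : Cfg E) : K :=
  ∑ j ∈ Finset.range s.n, s.x j • T (a j) (s.b j) +
    s.α1 • (T (a s.i) (s.b s.i) + T (a s.n) (s.b s.n)) +
    s.α2 • (T (a s.n) (s.b s.i) - T (a s.i) (s.b s.n)) +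
    s.B • (T (a s.i) (s.b s.i) - T (a s.n) (s.b s.n))

/-- The one variable potential. -/
noncomputable def hh (M x : ℝ) : ℝ := x * max 0 (4 * x / M - 3)

/-- The potential of a configuration. -/
noncomputable def pot (s : Cfg E) (M : ℝ) : ℝ :=
  2 * s.B - s.X + ∑ j ∈ Finset.range s.n, hh M (s.x j) + hh M s.X

theorem inner_f {T : E → E → K} (hT : ∀ a b c d : E, ⟪T a b, T c d⟫ = ⟪a, c⟫ * ⟪b, d⟫)
    (a : ℕ → E) (s : Cfg E) (u v : E) :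
    ⟪s.f T a, T u v⟫ = ∑ j ∈ Finset.range s.n, s.x j * (⟪a j, u⟫ * ⟪s.b j, v⟫) +
      (s.α1 * (⟪a s.i, u⟫ * ⟪s.b s.i, v⟫ + ⟪a s.n, u⟫ * ⟪s.b s.n, v⟫) +
      s.α2 * (⟪a s.n, u⟫ * ⟪s.b s.i, v⟫ - ⟪a s.i, u⟫ * ⟪s.b s.n, v⟫) +
      s.B * (⟪a s.i, u⟫ * ⟪s.b s.i, v⟫ - ⟪a s.n, u⟫ * ⟪s.b s.n, v⟫)) := by
  unfold f
  simp only [inner_add_left, inner_sub_left, inner_smul_left, sum_inner, hT]
  simp
  ring

theorem bound {T : E → E → K} (hT : ∀ a b c d : E, ⟪T a b, T c d⟫ = ⟪a, c⟫ * ⟪b, d⟫)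
    {a : ℕ → E} (ha : Orthonormal ℝ a) (s : Cfg E) (u v : E) (hu : ‖u‖ = 1) (hv : ‖v‖ = 1) :
    |⟪s.f T a, T u v⟫| ≤ s.X := by
  rw [inner_f hT]
  have hU : ∑ j ∈ Finset.range (s.n + 1), ⟪a j, u⟫ ^ 2 ≤ 1 := by
    have := ha.sum_inner_products_le (x := u) (s := Finset.range (s.n + 1))
    rw [hu] at this
    simpa [sq_abs] using this
  have hV : ∑ j ∈ Finset.range (s.n + 1), ⟪s.b j, v⟫ ^ 2 ≤ 1 := by
    have := s.hb.sum_inner_products_le (x := v) (s := Finset.range (s.n + 1))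
    rw [hv] at this
    simpa [sq_abs] using this
  rw [Finset.sum_range_succ] at hU hV
  have h1 : |∑ j ∈ Finset.range s.n, s.x j * (⟪a j, u⟫ * ⟪s.b j, v⟫)| ≤
      ∑ j ∈ Finset.range s.n, (s.X / 2 * (⟪a j, u⟫ ^ 2 + ⟪s.b j, v⟫ ^ 2) -
        if j = s.i then s.X / 2 * (⟪a j, u⟫ ^ 2 + ⟪s.b j, v⟫ ^ 2) else 0) := by
    refine (Finset.abs_sum_le_sum_abs _ _).trans (Finset.sum_le_sum ?_)
    intro j hj
    have hj' := Finset.mem_range.mp hj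
    by_cases hji : j = s.i
    · rw [if_pos hji, hji, s.hxi]; simp
    · rw [if_neg hji, sub_zero, abs_mul, abs_of_nonneg (s.hx0 j hj'), abs_mul]
      have h2 : |⟪a j, u⟫| * |⟪s.b j, v⟫| ≤ (⟪a j, u⟫ ^ 2 + ⟪s.b j, v⟫ ^ 2) / 2 := by
        have := two_mul_le_add_sq |⟪a j, u⟫| |⟪s.b j, v⟫|
        rw [sq_abs, sq_abs] at this
        linarith
      calc s.x j * (|⟪a j, u⟫| * |⟪s.b j, v⟫|)
          ≤ s.X * ((⟪a j, u⟫ ^ 2 + ⟪s.b j, v⟫ ^ 2) / 2) :=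
            mul_le_mul (s.hxX j hj') h2 (by positivity) s.hX.le
        _ = s.X / 2 * (⟪a j, u⟫ ^ 2 + ⟪s.b j, v⟫ ^ 2) := by ring
  have h2 : ∑ j ∈ Finset.range s.n, (s.X / 2 * (⟪a j, u⟫ ^ 2 + ⟪s.b j, v⟫ ^ 2) -
        if j = s.i then s.X / 2 * (⟪a j, u⟫ ^ 2 + ⟪s.b j, v⟫ ^ 2) else 0) =
      s.X / 2 * (∑ j ∈ Finset.range s.n, ⟪a j, u⟫ ^ 2 +
        ∑ j ∈ Finset.range s.n, ⟪s.b j, v⟫ ^ 2) -
      s.X / 2 * (⟪a s.i, u⟫ ^ 2 + ⟪s.b s.i, v⟫ ^ 2) := by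
    rw [Finset.sum_sub_distrib, ← Finset.mul_sum, Finset.sum_add_distrib,
      Finset.sum_ite_eq' (Finset.range s.n) s.i, if_pos (Finset.mem_range.mpr s.hi)]
  have h3 := block_le s.α1 s.α2 s.B s.X ⟪a s.i, u⟫ ⟪a s.n, u⟫ ⟪s.b s.i, v⟫ ⟪s.b s.n, v⟫ s.hX s.hα
  have h4 := abs_add_le (∑ j ∈ Finset.range s.n, s.x j * (⟪a j, u⟫ * ⟪s.b j, v⟫))
      (s.α1 * (⟪a s.i, u⟫ * ⟪s.b s.i, v⟫ + ⟪a s.n, u⟫ * ⟪s.b s.n, v⟫) +
      s.α2 * (⟪a s.n, u⟫ * ⟪s.b s.i, v⟫ - ⟪a s.i, u⟫ * ⟪s.b s.n, v⟫) +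
      s.B * (⟪a s.i, u⟫ * ⟪s.b s.i, v⟫ - ⟪a s.n, u⟫ * ⟪s.b s.n, v⟫))
  rw [h2] at h1
  have h5 : s.X / 2 * (∑ j ∈ Finset.range s.n, ⟪a j, u⟫ ^ 2 + ⟪a s.n, u⟫ ^ 2 +
      (∑ j ∈ Finset.range s.n, ⟪s.b j, v⟫ ^ 2 + ⟪s.b s.n, v⟫ ^ 2)) ≤ s.X / 2 * 2 :=
    mul_le_mul_of_nonneg_left (by linarith) (by have := s.hX; positivity)
  nlinarith [h1, h3, h4, h5]

/-- One greedy step inside the active block. -/
theorem inner_step {T : E → E → K} (hT : ∀ a b c d : E, ⟪T a b, T c d⟫ = ⟪a, c⟫ * ⟪b, d⟫)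
    {a : ℕ → E} (ha : Orthonormal ℝ a) (s : Cfg E) (c : ℝ) (hc0 : 0 ≤ c) (hc : c ≤ 2 * s.B) :
    ∃ (s' : Cfg E) (u v : E), ‖u‖ = 1 ∧ ‖v‖ = 1 ∧ ⟪s.f T a, T u v⟫ = c ∧
      s'.f T a = s.f T a - c • T u v ∧ s'.X = s.X ∧ s'.B = s.B - c / 2 ∧
      ∀ M, s'.pot M = s.pot M - c := by
  obtain ⟨p1, p2, hp, hd⟩ := exists_unit s.α1 s.α2 (c - s.B) (by
    have h1 : (c - s.B) ^ 2 ≤ s.B ^ 2 := by nlinarith [s.hB]
    exact h1.trans s.hBα)
  obtain ⟨g, k, hgk, hgk1, hgk2⟩ := exists_half p1 p2 hp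
  have hin : s.i ≠ s.n := ne_of_lt s.hi
  have haa : ∀ i j, ⟪a i, a j⟫ = if i = j then (1 : ℝ) else 0 := orthonormal_iff_ite.mp ha
  have hbb : ∀ i j, ⟪s.b i, s.b j⟫ = if i = j then (1 : ℝ) else 0 := orthonormal_iff_ite.mp s.hb
  have hu : ‖g • a s.i + k • a s.n‖ = 1 := by
    have h1 : ‖g • a s.i + k • a s.n‖ ^ 2 = 1 := by
      rw [← real_inner_self_eq_norm_sq]
      simp only [inner_add_left, inner_add_right, inner_smul_left, inner_smul_right, haa]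
      simp [hin, hin.symm]
      linarith
    nlinarith [norm_nonneg (g • a s.i + k • a s.n)]
  have hv : ‖g • s.b s.i + (-k) • s.b s.n‖ = 1 := by
    have h1 : ‖g • s.b s.i + (-k) • s.b s.n‖ ^ 2 = 1 := by
      rw [← real_inner_self_eq_norm_sq]
      simp only [inner_add_left, inner_add_right, inner_smul_left, inner_smul_right, hbb]
      simp [hin, hin.symm]
      linarith
    nlinarith [norm_nonneg (g • s.b s.i + (-k) • s.b s.n)]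
  have hA : (s.α1 - c / 2 * p1) ^ 2 + (s.α2 - c / 2 * p2) ^ 2 =
      s.α1 ^ 2 + s.α2 ^ 2 - c * (c - s.B) + c ^ 2 / 4 := by
    linear_combination (-c) * hd + c ^ 2 / 4 * hp
  have hcB : 0 ≤ c * (2 * s.B - c) := mul_nonneg hc0 (by linarith)
  refine ⟨{ s with
      α1 := s.α1 - c / 2 * p1
      α2 := s.α2 - c / 2 * p2
      B := s.B - c / 2
      hB := by linarith
      hBα := by rw [hA]; nlinarith [s.hBα, hcB]
      hα := by rw [hA]; nlinarith [s.hα, sq_nonneg c] }, g • a s.i + k • a s.n, g • s.b s.i + (-k) • s.b s.n,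
      hu, hv, ?_, ?_, rfl, rfl, ?_⟩
  · rw [inner_f hT]
    have h0 : ∑ j ∈ Finset.range s.n, s.x j * (⟪a j, g • a s.i + k • a s.n⟫ *
        ⟪s.b j, g • s.b s.i + (-k) • s.b s.n⟫) = 0 := by
      apply Finset.sum_eq_zero
      intro j hj
      have hj' := Finset.mem_range.mp hj
      by_cases hji : j = s.i
      · rw [hji, s.hxi]; ring
      · have hjn : j ≠ s.n := ne_of_lt hj'
        rw [inner_add_right, inner_smul_right, inner_smul_right, haa, haa, if_neg hji, if_neg hjn]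
        ring
    rw [h0]
    simp only [inner_add_right, inner_smul_right, haa, hbb]
    simp only [if_neg hin, if_neg hin.symm, if_true]
    have : s.α1 * p1 + s.α2 * p2 = c - s.B := hd
    rw [← hgk1, ← hgk2] at this
    linear_combination this + s.B * hgk
  · have hTuv : T (g • a s.i + k • a s.n) (g • s.b s.i + (-k) • s.b s.n) =
        (g ^ 2) • T (a s.i) (s.b s.i) - (g * k) • T (a s.i) (s.b s.n) +
        (g * k) • T (a s.n) (s.b s.i) - (k ^ 2) • T (a s.n) (s.b s.n) := by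
      rw [T_add_left hT, T_add_right hT, T_add_right hT, T_smul_left hT, T_smul_left hT,
        T_smul_left hT, T_smul_left hT, T_smul_right hT, T_smul_right hT, T_smul_right hT,
        T_smul_right hT]
      module
    rw [hTuv]
    unfold f
    have hB' : s.B - c / 2 = s.B - c / 2 * (g ^ 2 + k ^ 2) := by rw [hgk]; ring
    simp only
    rw [hB', ← hgk1, ← hgk2]
    module
  · intro M
    unfold pot
    simp only
    ring

end Cfg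

end Pool.Agent.W172.WG
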