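import Mathlib
import Pool.Agent.W172.WG.Nec1

/-!
End of an operation: the active block has become a multiple of an isometry; choose the next node.
-/

namespace Pool.Agent.W172.WG

open MeasureTheory Filter Topology RealInnerProductSpace

namespace Cfg

theorem hh_zero (M : ℝ) : hh M 0 = 0 := by simp [hh]

theorem hh_nonneg (M x : ℝ) (hx : 0 ≤ x) : 0 ≤ hh M x :=
  mul_nonneg hx (le_max_left _ _)

theorem hh_split (M X r : ℝ) (hM : 0 < M) (hMX : M ≤ X) (hr : 0 ≤ r)
    (hrX : 2 * r ^ 2 ≤ X ^ 2) : 2 * hh M r ≤ hh M X - X := by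
  have hX : 0 < X := lt_of_lt_of_le hM hMX
  have hXM : 1 ≤ X / M := by rw [le_div_iff₀ hM]; linarith
  have h1 : hh M X = X * (4 * X / M - 3) := by
    unfold hh
    rw [max_eq_right]
    have : 4 * X / M = 4 * (X / M) := by ring
    rw [this]; linarith
  rw [h1]
  unfold hh
  rcases le_total (4 * r / M - 3) 0 with h | h
  · rw [max_eq_left h]
    have : 4 * X / M = 4 * (X / M) := by ring
    rw [this]
    nlinarith
  · rw [max_eq_right h]
    -- use the variables scaled by `M`
    set ρ := r / M with hρ
    set ξ := X / M with hξ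
    have e1 : 4 * r / M = 4 * ρ := by rw [hρ]; ring
    have e2 : 4 * X / M = 4 * ξ := by rw [hξ]; ring
    have er : r = M * ρ := by rw [hρ]; field_simp
    have eX : X = M * ξ := by rw [hξ]; field_simp
    rw [e1] at h
    rw [e1, e2]
    have h2 : 2 * ρ ^ 2 ≤ ξ ^ 2 := by
      rw [er, eX] at hrX
      have hM2 : 0 < M ^ 2 := by positivity
      nlinarith
    have hρ0 : 3 / 4 ≤ ρ := by linarith
    have hξ1 : 1 ≤ ξ := hXM
    rw [er, eX]
    have key : 2 * (ρ * (4 * ρ - 3)) ≤ ξ * (4 * ξ - 3) - ξ := by
      -- 8 ρ² - 6 ρ ≤ 4 ξ² - 4 ξ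
      by_cases hc : 4 * ξ ≤ 6 * ρ
      · nlinarith
      · push Not at hc
        -- ρ < (2/3) ξ
        nlinarith
    calc 2 * (M * ρ * (4 * ρ - 3)) = M * (2 * (ρ * (4 * ρ - 3))) := by ring
      _ ≤ M * (ξ * (4 * ξ - 3) - ξ) := mul_le_mul_of_nonneg_left key hM.le
      _ = M * ξ * (4 * ξ - 3) - M * ξ := by ring

variable {E K : Type*} [NormedAddCommGroup E] [InnerProductSpace ℝ E]
  [NormedAddCommGroup K] [InnerProductSpace ℝ K]

theorem rotate_orthonormal {b : ℕ → E} (hb : Orthonormal ℝ b) (i n : ℕ) (hin : i ≠ n)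
    (p q : ℝ) (hpq : p ^ 2 + q ^ 2 = 1) :
    Orthonormal ℝ (fun j => if j = i then p • b i - q • b n
      else if j = n then q • b i + p • b n else b j) := by
  have hbb : ∀ i j, ⟪b i, b j⟫ = if i = j then (1 : ℝ) else 0 := orthonormal_iff_ite.mp hb
  rw [orthonormal_iff_ite]
  intro j k
  by_cases hji : j = i
  · subst hji
    by_cases hkj : k = j
    · subst hkj
      simp only [if_true, inner_sub_left, inner_sub_right, inner_smul_left, inner_smul_right, hbb]
      simp [hin, hin.symm]
      linarith
    · by_cases hkn : k = n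
      · subst hkn
        simp only [if_true, if_neg hin, if_neg hin.symm, inner_sub_left, inner_add_right,
          inner_smul_left, inner_smul_right, hbb]
        simp
        ring
      · simp only [if_true, if_neg hkj, if_neg hkn, if_neg (Ne.symm hkj), inner_sub_left,
          inner_smul_left, hbb, if_neg (Ne.symm hkn)]
        simp
  · by_cases hjn : j = n
    · subst hjn
      by_cases hki : k = i
      · subst hki
        simp only [if_true, if_neg hin, if_neg hin.symm, inner_sub_right, inner_add_left,
          inner_smul_left, inner_smul_right, hbb]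
        simp
        ring
      · by_cases hkj : k = j
        · subst hkj
          simp only [if_true, if_neg hki, inner_add_left, inner_add_right, inner_smul_left,
            inner_smul_right, hbb]
          simp [hin, hin.symm]
          linarith
        · simp only [if_true, if_neg hki, if_neg hkj, if_neg hji, if_neg (Ne.symm hkj),
            inner_add_left, inner_smul_left, hbb, if_neg (Ne.symm hki)]
          simp
    · by_cases hki : k = i
      · subst hki
        simp only [if_true, if_neg hji, if_neg hjn, inner_sub_right, inner_smul_right, hbb]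
        simp
      · by_cases hkn : k = n
        · subst hkn
          simp only [if_true, if_neg hki, if_neg hji, if_neg hjn, inner_add_right,
            inner_smul_right, hbb]
          simp
        · simp only [if_neg hki, if_neg hkn, if_neg hji, if_neg hjn, hbb]

theorem exists_polar (α1 α2 : ℝ) : ∃ r p q : ℝ, 0 ≤ r ∧ r ^ 2 = α1 ^ 2 + α2 ^ 2 ∧
    p ^ 2 + q ^ 2 = 1 ∧ α1 = r * p ∧ α2 = r * q := by
  have h0 : 0 ≤ α1 ^ 2 + α2 ^ 2 := by positivity
  set r := Real.sqrt (α1 ^ 2 + α2 ^ 2) with hr
  have hr2 : r ^ 2 = α1 ^ 2 + α2 ^ 2 := Real.sq_sqrt h0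
  by_cases hz : r = 0
  · have h1 : α1 ^ 2 + α2 ^ 2 = 0 := by rw [← hr2, hz]; ring
    have h2 : α1 = 0 := by nlinarith [sq_nonneg α1, sq_nonneg α2]
    have h3 : α2 = 0 := by nlinarith [sq_nonneg α1, sq_nonneg α2]
    exact ⟨0, 1, 0, le_rfl, by rw [h1]; ring, by norm_num, by rw [h2]; ring, by rw [h3]; ring⟩
  · refine ⟨r, α1 / r, α2 / r, Real.sqrt_nonneg _, hr2, ?_, by field_simp, by field_simp⟩
    rw [div_pow, div_pow, ← add_div, hr2, div_self]
    rw [← hr2]; positivity

/-- When the active block is balanced (`B = 0`), a new active block can be chosen. -/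
theorem finish_step {T : E → E → K} (hT : ∀ a b c d : E, ⟪T a b, T c d⟫ = ⟪a, c⟫ * ⟪b, d⟫)
    (a : ℕ → E) (s : Cfg E) (hB : s.B = 0) (hf : s.f T a ≠ 0) :
    ∃ s' : Cfg E, s'.f T a = s.f T a ∧ s'.X ≤ s.X ∧ 2 * s'.B = s'.X ∧
      ∀ M, 0 < M → M ≤ s'.X → s'.pot M ≤ s.pot M := by
  obtain ⟨r, p, q, hr0, hr2, hpq, h1, h2⟩ := exists_polar s.α1 s.α2
  have hin : s.i ≠ s.n := ne_of_lt s.hi
  have hrX2 : 2 * r ^ 2 ≤ s.X ^ 2 := by
    have := s.hα
    rw [hB] at this
    rw [hr2]; nlinarith
  have hrX : r ≤ s.X := by nlinarith [s.hX]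
  set b' : ℕ → E := fun j => if j = s.i then p • s.b s.i - q • s.b s.n
      else if j = s.n then q • s.b s.i + p • s.b s.n else s.b j with hb'
  have hb'o : Orthonormal ℝ b' := rotate_orthonormal s.hb s.i s.n hin p q hpq
  set x' : ℕ → ℝ := fun j => if j = s.i ∨ j = s.n then r else s.x j with hx'
  have hx'0 : ∀ j < s.n + 1, 0 ≤ x' j := by
    intro j hj
    rw [hx']
    simp only
    split_ifs with h
    · exact hr0
    · push Not at h
      exact s.hx0 j (lt_of_le_of_ne (Nat.lt_succ_iff.mp hj) h.2)
  have hx'X : ∀ j < s.n + 1, x' j ≤ s.X := by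
    intro j hj
    rw [hx']
    simp only
    split_ifs with h
    · exact hrX
    · push Not at h
      exact s.hxX j (lt_of_le_of_ne (Nat.lt_succ_iff.mp hj) h.2)
  -- the element as a diagonal sum
  have hfsum : s.f T a = ∑ j ∈ Finset.range (s.n + 1), x' j • T (a j) (b' j) := by
    rw [Finset.sum_range_succ]
    have e1 : ∑ j ∈ Finset.range s.n, x' j • T (a j) (b' j) =
        ∑ j ∈ Finset.range s.n, s.x j • T (a j) (s.b j) +
          r • T (a s.i) (p • s.b s.i - q • s.b s.n) := by
      rw [← sub_eq_iff_eq_add', ← Finset.sum_sub_distrib]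
      rw [Finset.sum_eq_single s.i]
      · rw [hx', hb']
        simp [s.hxi]
      · intro j hj hji
        have hjn : j ≠ s.n := ne_of_lt (Finset.mem_range.mp hj)
        rw [hx', hb']
        simp [hji, hjn]
      · intro h
        exact absurd (Finset.mem_range.mpr s.hi) h
    have e2 : x' s.n • T (a s.n) (b' s.n) = r • T (a s.n) (q • s.b s.i + p • s.b s.n) := by
      rw [hx', hb']
      simp [hin.symm]
    have e3 : T (a s.i) (p • s.b s.i - q • s.b s.n) =
        p • T (a s.i) (s.b s.i) - q • T (a s.i) (s.b s.n) := by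
      have : p • s.b s.i - q • s.b s.n = p • s.b s.i + (-q) • s.b s.n := by module
      rw [this, T_add_right hT, T_smul_right hT, T_smul_right hT]
      module
    have e4 : T (a s.n) (q • s.b s.i + p • s.b s.n) =
        q • T (a s.n) (s.b s.i) + p • T (a s.n) (s.b s.n) := by
      rw [T_add_right hT, T_smul_right hT, T_smul_right hT]
    rw [e1, e2, e3, e4]
    unfold f
    rw [hB, h1, h2]
    module
  obtain ⟨i', hi', hmax⟩ := Finset.exists_max_image (Finset.range (s.n + 1)) x'
    ⟨0, Finset.mem_range.mpr (Nat.succ_pos _)⟩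
  have hi'lt := Finset.mem_range.mp hi'
  have hXpos : 0 < x' i' := by
    by_contra hneg
    push Not at hneg
    apply hf
    rw [hfsum]
    apply Finset.sum_eq_zero
    intro j hj
    have : x' j = 0 := le_antisymm ((hmax j hj).trans hneg) (hx'0 j (Finset.mem_range.mp hj))
    rw [this, zero_smul]
  refine ⟨{ n := s.n + 1
            i := i'
            hi := hi'lt
            b := b'
            hb := hb'o
            x := fun j => if j = i' then 0 else x' j
            α1 := x' i' / 2
            α2 := 0
            B := x' i' / 2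
            X := x' i'
            hx0 := ?_
            hxX := ?_
            hxi := by simp
            hB := by linarith
            hBα := by nlinarith
            hα := by nlinarith
            hX := hXpos }, ?_, ?_, ?_, ?_⟩
  · intro j hj
    split_ifs with h
    · exact le_rfl
    · exact hx'0 j hj
  · intro j hj
    split_ifs with h
    · exact hXpos.le
    · exact hmax j (Finset.mem_range.mpr hj)
  · rw [hfsum]
    unfold f
    simp only
    have e1 : ∑ j ∈ Finset.range (s.n + 1), x' j • T (a j) (b' j) =
        ∑ j ∈ Finset.range (s.n + 1), (if j = i' then (0 : ℝ) else x' j) • T (a j) (b' j) +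
          x' i' • T (a i') (b' i') := by
      rw [← sub_eq_iff_eq_add', ← Finset.sum_sub_distrib]
      rw [Finset.sum_eq_single i']
      · simp
      · intro j hj hji
        simp [hji]
      · intro h
        exact absurd hi' h
    rw [e1]
    module
  · exact hx'X i' hi'lt
  · simp only
    ring
  · intro M hM hMX
    simp only at hMX
    unfold pot
    simp only
    have e1 : ∑ j ∈ Finset.range (s.n + 1), hh M (if j = i' then (0 : ℝ) else x' j) +
        hh M (x' i') = ∑ j ∈ Finset.range (s.n + 1), hh M (x' j) := by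
      rw [← eq_sub_iff_add_eq', ← Finset.sum_sub_distrib, Finset.sum_eq_single i']
      · simp [hh_zero]
      · intro j hj hji
        simp [hji]
      · intro h
        exact absurd hi' h
    have e2 : ∑ j ∈ Finset.range (s.n + 1), hh M (x' j) =
        ∑ j ∈ Finset.range s.n, hh M (s.x j) + 2 * hh M r := by
      rw [Finset.sum_range_succ]
      have e3 : ∑ j ∈ Finset.range s.n, hh M (x' j) =
          ∑ j ∈ Finset.range s.n, hh M (s.x j) + hh M r := by
        rw [← sub_eq_iff_eq_add', ← Finset.sum_sub_distrib, Finset.sum_eq_single s.i]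
        · rw [hx']
          simp [s.hxi, hh_zero]
        · intro j hj hji
          have hjn : j ≠ s.n := ne_of_lt (Finset.mem_range.mp hj)
          rw [hx']
          simp [hji, hjn]
        · intro h
          exact absurd (Finset.mem_range.mpr s.hi) h
      have e4 : x' s.n = r := by rw [hx']; simp
      rw [e3, e4]
      ring
    have h3 := hh_split M s.X r hM (hMX.trans (hx'X i' hi'lt)) hr0 hrX2
    rw [hB]
    linarith

end Cfg

end Pool.Agent.W172.WG
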