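import Mathlib
import Pool.Agent.W172.WG.Nec2

/-!
The infinite run of the algorithm.
-/

namespace Pool.Agent.W172.WG

open MeasureTheory Filter Topology RealInnerProductSpace

section run

variable {E K : Type*} [NormedAddCommGroup E] [InnerProductSpace ℝ E]
  [NormedAddCommGroup K] [InnerProductSpace ℝ K]

/-- The data of the run: weakness sequence `t`, majorant `y`, head length `K0`, initial value
`s0`, energy `E0 = 1/10`. -/
structure Par (t y : ℕ → ℝ) (K0 : ℕ) (s0 : ℝ) : Prop where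
  ht0 : ∀ k, 0 ≤ t k
  ht1 : ∀ k, t k ≤ 1
  hy0 : ∀ k, 0 ≤ y k
  hdom : ∀ k, t k ≤ y k * ∑ j ∈ Finset.range (k + 1), y j
  hs0 : 0 < s0
  hs1 : s0 ≤ 1 / 2
  hhead : (∑ j ∈ Finset.range K0, y j) * s0 ≤ 1 / 10
  hhead2 : (K0 : ℝ) * s0 ^ 2 ≤ 1 / 1000
  htail : ∀ k, ∑ j ∈ Finset.range k, (if j < K0 then (0 : ℝ) else y j) ^ 2 ≤ 1 / 100

/-- The step sizes aimed at. -/
noncomputable def lam (y : ℕ → ℝ) (K0 : ℕ) (s0 : ℝ) (j : ℕ) : ℝ := if j < K0 then s0 else y j

/-- The tail of `y`. -/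
noncomputable def zz (y : ℕ → ℝ) (K0 : ℕ) (j : ℕ) : ℝ := if j < K0 then 0 else y j

/-- The invariants at time `k`. -/
structure Inv (T : E → E → K) (a : ℕ → E) (y : ℕ → ℝ) (K0 : ℕ) (s0 : ℝ) (k : ℕ) (s : Cfg E)
    (C : ℝ) : Prop where
  hR : min s.X (lam y K0 s0 k) ≤ 2 * s.B
  hP : ∀ M, 0 < M → M ≤ s.X → C + s.pot M ≤ (4 / 10) / M
  hQ : ∑ j ∈ Finset.range k, zz y K0 j ≤ C + (∑ j ∈ Finset.range k, zz y K0 j ^ 2) / s.X
  hX : s.X ≤ s0
  hE : 1 / 10 - ∑ j ∈ Finset.range k, (2 * lam y K0 s0 j ^ 2 + 2 * lam y K0 s0 (j + 1) ^ 2) ≤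
    ‖s.f T a‖ ^ 2

theorem lam_nonneg {t y : ℕ → ℝ} {K0 : ℕ} {s0 : ℝ} (hp : Par t y K0 s0) (j : ℕ) :
    0 ≤ lam y K0 s0 j := by
  unfold lam
  split_ifs
  · exact hp.hs0.le
  · exact hp.hy0 j

theorem sum_lam_le {t y : ℕ → ℝ} {K0 : ℕ} {s0 : ℝ} (hp : Par t y K0 s0) (k : ℕ) :
    ∑ j ∈ Finset.range k, lam y K0 s0 j ^ 2 ≤ 11 / 1000 := by
  have h1 : ∀ j, lam y K0 s0 j ^ 2 = (if j < K0 then s0 ^ 2 else 0) +
      (if j < K0 then (0 : ℝ) else y j) ^ 2 := by
    intro j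
    unfold lam
    split_ifs <;> ring
  rw [Finset.sum_congr rfl fun j _ => h1 j, Finset.sum_add_distrib]
  have h2 : ∑ j ∈ Finset.range k, (if j < K0 then s0 ^ 2 else 0) ≤ (K0 : ℝ) * s0 ^ 2 := by
    rw [← Finset.sum_filter, Finset.sum_const, nsmul_eq_mul]
    apply mul_le_mul_of_nonneg_right _ (by positivity)
    have : (Finset.filter (fun j => j < K0) (Finset.range k)).card ≤ (Finset.range K0).card := by
      apply Finset.card_le_card
      intro j hj
      rw [Finset.mem_filter] at hj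
      exact Finset.mem_range.mpr hj.2
    rw [Finset.card_range] at this
    exact_mod_cast this
  have h3 := hp.htail k
  have h4 := hp.hhead2
  linarith

theorem sum_two_lam_le {t y : ℕ → ℝ} {K0 : ℕ} {s0 : ℝ} (hp : Par t y K0 s0) (k : ℕ) :
    ∑ j ∈ Finset.range k, (2 * lam y K0 s0 j ^ 2 + 2 * lam y K0 s0 (j + 1) ^ 2) ≤ 44 / 1000 := by
  rw [Finset.sum_add_distrib, ← Finset.mul_sum, ← Finset.mul_sum]
  have h1 := sum_lam_le hp k
  have h2 : ∑ j ∈ Finset.range k, lam y K0 s0 (j + 1) ^ 2 ≤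
      ∑ j ∈ Finset.range (k + 1), lam y K0 s0 j ^ 2 := by
    rw [Finset.sum_range_succ']
    have := sq_nonneg (lam y K0 s0 0)
    linarith
  have h3 := sum_lam_le hp (k + 1)
  linarith

theorem norm_lower {T : E → E → K} {a : ℕ → E} {t y : ℕ → ℝ} {K0 : ℕ} {s0 : ℝ}
    (hp : Par t y K0 s0) {k : ℕ} {s : Cfg E} {C : ℝ} (h : Inv T a y K0 s0 k s C) :
    56 / 1000 ≤ ‖s.f T a‖ ^ 2 := by
  have := h.hE
  have h2 := sum_two_lam_le hp k
  linarith

/-- The size of the next step is large enough. -/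
theorem tX_le {T : E → E → K} {a : ℕ → E} {t y : ℕ → ℝ} {K0 : ℕ} {s0 : ℝ}
    (hp : Par t y K0 s0) {k : ℕ} {s : Cfg E} {C : ℝ} (h : Inv T a y K0 s0 k s C) :
    t k * s.X ≤ min s.X (lam y K0 s0 k) := by
  have hX := s.hX
  have h1 : t k * s.X ≤ s.X := by nlinarith [hp.ht1 k]
  apply le_min h1
  unfold lam
  split_ifs with hk
  · exact h1.trans h.hX
  · push Not at hk
    -- X * C ≤ 4/10
    have hC : C * s.X ≤ 4 / 10 := by
      have h2 := h.hP s.X hX le_rfl
      have h3 : 0 ≤ s.pot s.X := by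
        unfold Cfg.pot
        have h4 : Cfg.hh s.X s.X = s.X := by
          unfold Cfg.hh
          have : 4 * s.X / s.X = 4 := by field_simp
          rw [this]; norm_num
        have h5 : 0 ≤ ∑ j ∈ Finset.range s.n, Cfg.hh s.X (s.x j) :=
          Finset.sum_nonneg fun j hj => Cfg.hh_nonneg _ _ (s.hx0 j (Finset.mem_range.mp hj))
        rw [h4]
        linarith [s.hB]
      have h6 : C ≤ (4 / 10) / s.X := by linarith
      rwa [le_div_iff₀ hX] at h6
    have hsplit : ∑ j ∈ Finset.range (k + 1), y j =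
        ∑ j ∈ Finset.range K0, y j + ∑ j ∈ Finset.range k, zz y K0 j + y k := by
      rw [Finset.sum_range_succ]
      congr 1
      have e1 : ∀ j, y j = (if j < K0 then y j else 0) + zz y K0 j := by
        intro j; unfold zz; split_ifs <;> ring
      rw [Finset.sum_congr rfl fun j _ => e1 j, Finset.sum_add_distrib]
      congr 1
      rw [← Finset.sum_filter]
      apply Finset.sum_congr _ fun _ _ => rfl
      ext j
      simp only [Finset.mem_filter, Finset.mem_range]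
      constructor
      · exact fun h => h.2
      · exact fun h => ⟨lt_of_lt_of_le h hk, h⟩
    have hz2 : ∑ j ∈ Finset.range k, zz y K0 j ^ 2 ≤ 1 / 100 := hp.htail k
    have hQ := h.hQ
    have hQ2 : (∑ j ∈ Finset.range k, zz y K0 j) * s.X ≤ 4 / 10 + 1 / 100 := by
      have : (∑ j ∈ Finset.range k, zz y K0 j) * s.X ≤
          (C + (∑ j ∈ Finset.range k, zz y K0 j ^ 2) / s.X) * s.X :=
        mul_le_mul_of_nonneg_right hQ hX.le
      have e : (C + (∑ j ∈ Finset.range k, zz y K0 j ^ 2) / s.X) * s.X =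
          C * s.X + ∑ j ∈ Finset.range k, zz y K0 j ^ 2 := by
        field_simp
      rw [e] at this
      linarith
    have hyk : y k ≤ 1 / 10 := by
      have h7 := hp.htail (k + 1)
      rw [Finset.sum_range_succ] at h7
      have h8 : 0 ≤ ∑ j ∈ Finset.range k, (if j < K0 then (0 : ℝ) else y j) ^ 2 :=
        Finset.sum_nonneg fun j _ => sq_nonneg _
      rw [if_neg (by omega)] at h7
      nlinarith [hp.hy0 k]
    have hhd : (∑ j ∈ Finset.range K0, y j) * s.X ≤ 1 / 10 := by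
      refine le_trans ?_ hp.hhead
      exact mul_le_mul_of_nonneg_left h.hX (Finset.sum_nonneg fun j _ => hp.hy0 j)
    have hyX : y k * s.X ≤ 1 / 10 := by
      have := h.hX
      have := hp.hs1
      nlinarith [hp.hy0 k]
    have hYX : (∑ j ∈ Finset.range (k + 1), y j) * s.X ≤ 1 := by
      rw [hsplit, add_mul, add_mul]
      linarith
    calc t k * s.X ≤ (y k * ∑ j ∈ Finset.range (k + 1), y j) * s.X :=
          mul_le_mul_of_nonneg_right (hp.hdom k) hX.le
      _ = y k * ((∑ j ∈ Finset.range (k + 1), y j) * s.X) := by ring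
      _ ≤ y k * 1 := mul_le_mul_of_nonneg_left hYX (hp.hy0 k)
      _ = y k := mul_one _

/-- One step of the run. -/
theorem run_step {T : E → E → K} (hT : ∀ a b c d : E, ⟪T a b, T c d⟫ = ⟪a, c⟫ * ⟪b, d⟫)
    {a : ℕ → E} (ha : Orthonormal ℝ a) {t y : ℕ → ℝ} {K0 : ℕ} {s0 : ℝ}
    (hp : Par t y K0 s0) {k : ℕ} {s : Cfg E} {C : ℝ} (h : Inv T a y K0 s0 k s C) :
    ∃ (s' : Cfg E) (C' : ℝ) (u v : E), Inv T a y K0 s0 (k + 1) s' C' ∧ ‖u‖ = 1 ∧ ‖v‖ = 1 ∧
      s'.f T a = s.f T a - ⟪s.f T a, T u v⟫ • T u v ∧ t k * s.X ≤ |⟪s.f T a, T u v⟫| := by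
  have hX := s.hX
  have hm0 : 0 ≤ min s.X (lam y K0 s0 k) := le_min hX.le (lam_nonneg hp k)
  have hm1 : 0 ≤ min s.X (lam y K0 s0 (k + 1)) := le_min hX.le (lam_nonneg hp (k + 1))
  have htX := tX_le hp h
  have hzl : zz y K0 k ≤ min s.X (lam y K0 s0 k) + zz y K0 k ^ 2 / s.X := by
    unfold zz lam
    split_ifs with hk
    · have : 0 ≤ min s.X s0 := le_min hX.le hp.hs0.le
      simp
      exact ⟨hX.le, hp.hs0.le⟩
    · rcases le_total s.X (y k) with h1 | h1
      · rw [min_eq_left h1]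
        have : y k ≤ y k ^ 2 / s.X := by
          rw [le_div_iff₀ hX]
          nlinarith [hp.hy0 k]
        linarith
      · rw [min_eq_right h1]
        have : 0 ≤ y k ^ 2 / s.X := by positivity
        linarith
  -- common part, for a step of size `c`
  have common : ∀ c : ℝ, min s.X (lam y K0 s0 k) ≤ c → c ≤ 2 * s.B →
      c ^ 2 ≤ 2 * lam y K0 s0 k ^ 2 + 2 * lam y K0 s0 (k + 1) ^ 2 →
      ∃ (s1 : Cfg E) (u v : E), ‖u‖ = 1 ∧ ‖v‖ = 1 ∧ ⟪s.f T a, T u v⟫ = c ∧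
        s1.f T a = s.f T a - c • T u v ∧ s1.X = s.X ∧ s1.B = s.B - c / 2 ∧
        (∀ M, 0 < M → M ≤ s1.X → C + c + s1.pot M ≤ (4 / 10) / M) ∧
        (∑ j ∈ Finset.range (k + 1), zz y K0 j ≤
          C + c + (∑ j ∈ Finset.range (k + 1), zz y K0 j ^ 2) / s1.X) ∧
        1 / 10 - ∑ j ∈ Finset.range (k + 1),
          (2 * lam y K0 s0 j ^ 2 + 2 * lam y K0 s0 (j + 1) ^ 2) ≤ ‖s1.f T a‖ ^ 2 := by
    intro c hc1 hc2 hc3
    obtain ⟨s1, u, v, hu, hv, huv, hf, hX1, hB1, hpot⟩ :=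
      Cfg.inner_step hT ha s c (hm0.trans hc1) hc2
    refine ⟨s1, u, v, hu, hv, huv, hf, hX1, hB1, ?_, ?_, ?_⟩
    · intro M hM hMX
      rw [hpot M]
      have := h.hP M hM (hX1 ▸ hMX)
      linarith
    · rw [hX1, Finset.sum_range_succ, Finset.sum_range_succ, add_div]
      have := h.hQ
      linarith
    · have hTn : ‖T u v‖ ^ 2 = 1 := by
        rw [← real_inner_self_eq_norm_sq, hT, real_inner_self_eq_norm_sq,
          real_inner_self_eq_norm_sq, hu, hv]
        norm_num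
      have hn : ‖s1.f T a‖ ^ 2 = ‖s.f T a‖ ^ 2 - c ^ 2 := by
        rw [hf, norm_sub_sq_real, inner_smul_right, huv, norm_smul, mul_pow, hTn,
          Real.norm_eq_abs, sq_abs]
        ring
      rw [hn, Finset.sum_range_succ]
      have := h.hE
      linarith
  by_cases hcase : min s.X (lam y K0 s0 k) + min s.X (lam y K0 s0 (k + 1)) ≤ 2 * s.B
  · -- continue the operation
    obtain ⟨s1, u, v, hu, hv, huv, hf, hX1, hB1, hP1, hQ1, hE1⟩ :=
      common (min s.X (lam y K0 s0 k)) le_rfl h.hR (by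
        have h1 : min s.X (lam y K0 s0 k) ≤ lam y K0 s0 k := min_le_right _ _
        nlinarith [lam_nonneg hp k, sq_nonneg (lam y K0 s0 (k + 1))])
    refine ⟨s1, C + min s.X (lam y K0 s0 k), u, v, ⟨?_, hP1, hQ1, ?_, hE1⟩, hu, hv, ?_, ?_⟩
    · rw [hX1, hB1]; linarith
    · rw [hX1]; exact h.hX
    · rw [huv, hf]
    · rw [huv]
      exact htX.trans (le_abs_self _)
  · -- finish the operation
    push Not at hcase
    obtain ⟨s1, u, v, hu, hv, huv, hf, hX1, hB1, hP1, hQ1, hE1⟩ :=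
      common (2 * s.B) h.hR le_rfl (by
        have h1 : min s.X (lam y K0 s0 k) ≤ lam y K0 s0 k := min_le_right _ _
        have h2 : min s.X (lam y K0 s0 (k + 1)) ≤ lam y K0 s0 (k + 1) := min_le_right _ _
        have h3 : 2 * s.B ≤ lam y K0 s0 k + lam y K0 s0 (k + 1) := by linarith
        have h4 : (2 * s.B) ^ 2 ≤ (lam y K0 s0 k + lam y K0 s0 (k + 1)) ^ 2 :=
          pow_le_pow_left₀ (by linarith [s.hB]) h3 2
        nlinarith [sq_nonneg (lam y K0 s0 k - lam y K0 s0 (k + 1))])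
    have hB0 : s1.B = 0 := by rw [hB1]; ring
    have hne : s1.f T a ≠ 0 := by
      intro h0
      rw [h0, norm_zero] at hE1
      have := sum_two_lam_le hp (k + 1)
      norm_num at hE1
      linarith
    obtain ⟨s2, hf2, hX2, hB2, hpot2⟩ := Cfg.finish_step hT a s1 hB0 hne
    refine ⟨s2, C + 2 * s.B, u, v, ⟨?_, ?_, ?_, ?_, ?_⟩, hu, hv, ?_, ?_⟩
    · rw [hB2]; exact min_le_left _ _
    · intro M hM hMX
      have h1 := hP1 M hM (hMX.trans hX2)
      have h2 := hpot2 M hM hMX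
      linarith
    · refine hQ1.trans ?_
      have h1 : 0 ≤ ∑ j ∈ Finset.range (k + 1), zz y K0 j ^ 2 :=
        Finset.sum_nonneg fun j _ => sq_nonneg _
      have h2 := div_le_div_of_nonneg_left h1 s2.hX hX2
      linarith
    · exact hX2.trans (hX1 ▸ h.hX)
    · rw [hf2]; exact hE1
    · rw [hf2, huv, hf]
    · rw [huv]
      exact (htX.trans h.hR).trans (le_abs_self _)

end run

end Pool.Agent.W172.WG
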