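import Mathlib
import Pool.Agent.W172.WG.Nec3

/-!
Divergence of the algorithm for dominated weakness sequences.
-/

namespace Pool.Agent.W172.WG

open MeasureTheory Filter Topology RealInnerProductSpace

section init

variable {E K : Type*} [NormedAddCommGroup E] [InnerProductSpace ℝ E]
  [NormedAddCommGroup K] [InnerProductSpace ℝ K]

theorem exists_init {T : E → E → K} (hT : ∀ a b c d : E, ⟪T a b, T c d⟫ = ⟪a, c⟫ * ⟪b, d⟫)
    {a : ℕ → E} (ha : Orthonormal ℝ a) (y : ℕ → ℝ) (K0 : ℕ) (s0 : ℝ) (hs0 : 0 < s0)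
    (N : ℕ) (hN : 0 < N) (hNs : (N : ℝ) * s0 ^ 2 = 1 / 10) :
    ∃ (s : Cfg E) (C : ℝ), Inv T a y K0 s0 0 s C := by
  have haa : ∀ i j, ⟪a i, a j⟫ = if i = j then (1 : ℝ) else 0 := orthonormal_iff_ite.mp ha
  refine ⟨{ n := N
            i := 0
            hi := hN
            b := a
            hb := ha
            x := fun j => if j = 0 then 0 else s0
            α1 := s0 / 2
            α2 := 0
            B := s0 / 2
            X := s0
            hx0 := ?_
            hxX := ?_
            hxi := by simp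
            hB := by linarith
            hBα := by nlinarith
            hα := by nlinarith
            hX := hs0 }, 0, ⟨?_, ?_, ?_, ?_, ?_⟩⟩
  · intro j _
    split_ifs
    · exact le_rfl
    · exact hs0.le
  · intro j _
    split_ifs
    · exact hs0.le
    · exact le_rfl
  · simp only
    have : 2 * (s0 / 2) = s0 := by ring
    rw [this]
    exact min_le_left _ _
  · intro M hM hMX
    simp only at hMX
    unfold Cfg.pot
    simp only
    have e1 : ∑ j ∈ Finset.range N, Cfg.hh M (if j = 0 then (0 : ℝ) else s0) + Cfg.hh M s0 =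
        N * Cfg.hh M s0 := by
      have : ∑ j ∈ Finset.range N, Cfg.hh M s0 = N * Cfg.hh M s0 := by
        rw [Finset.sum_const, Finset.card_range, nsmul_eq_mul]
      rw [← this, ← eq_sub_iff_add_eq', ← Finset.sum_sub_distrib, Finset.sum_eq_single 0]
      · simp [Cfg.hh_zero]
      · intro j _ hj
        simp [hj]
      · intro h
        exact absurd (Finset.mem_range.mpr hN) h
    have e2 : Cfg.hh M s0 ≤ s0 * (4 * s0 / M) := by
      unfold Cfg.hh
      apply mul_le_mul_of_nonneg_left _ hs0.le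
      apply max_le
      · positivity
      · linarith
    have e3 : (N : ℝ) * Cfg.hh M s0 ≤ (4 / 10) / M := by
      calc (N : ℝ) * Cfg.hh M s0 ≤ N * (s0 * (4 * s0 / M)) :=
            mul_le_mul_of_nonneg_left e2 (Nat.cast_nonneg _)
        _ = 4 * (N * s0 ^ 2) / M := by ring
        _ = (4 / 10) / M := by rw [hNs]; ring
    linarith
  · simp
  · exact le_rfl
  · simp only [Finset.range_zero, Finset.sum_empty, sub_zero]
    have hf : Cfg.f T a { n := N
                          i := 0
                          hi := hN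
                          b := a
                          hb := ha
                          x := fun j => if j = 0 then 0 else s0
                          α1 := s0 / 2
                          α2 := 0
                          B := s0 / 2
                          X := s0
                          hx0 := by
                            intro j _
                            split_ifs
                            · exact le_rfl
                            · exact hs0.le
                          hxX := by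
                            intro j _
                            split_ifs
                            · exact hs0.le
                            · exact le_rfl
                          hxi := by simp
                          hB := by linarith
                          hBα := by nlinarith
                          hα := by nlinarith
                          hX := hs0 } = s0 • ∑ j ∈ Finset.range N, T (a j) (a j) := by
      unfold Cfg.f
      simp only
      have e1 : s0 • ∑ j ∈ Finset.range N, T (a j) (a j) =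
          ∑ j ∈ Finset.range N, (if j = 0 then (0 : ℝ) else s0) • T (a j) (a j) +
            s0 • T (a 0) (a 0) := by
        rw [Finset.smul_sum, ← sub_eq_iff_eq_add', ← Finset.sum_sub_distrib,
          Finset.sum_eq_single 0]
        · simp
        · intro j _ hj
          simp [hj]
        · intro h
          exact absurd (Finset.mem_range.mpr hN) h
      rw [e1]
      module
    rw [hf, norm_smul, mul_pow, ← real_inner_self_eq_norm_sq (∑ j ∈ Finset.range N, T (a j) (a j))]
    have e2 : ⟪∑ j ∈ Finset.range N, T (a j) (a j), ∑ j ∈ Finset.range N, T (a j) (a j)⟫ =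
        (N : ℝ) := by
      rw [sum_inner]
      have : ∀ i ∈ Finset.range N, ⟪T (a i) (a i), ∑ j ∈ Finset.range N, T (a j) (a j)⟫ =
          (1 : ℝ) := by
        intro i hi
        rw [inner_sum, Finset.sum_eq_single i]
        · rw [hT, haa, if_pos rfl]; norm_num
        · intro j _ hj
          rw [hT, haa, if_neg (Ne.symm hj)]; norm_num
        · intro h
          exact absurd hi h
      rw [Finset.sum_congr rfl this]
      simp
    rw [e2, Real.norm_eq_abs, sq_abs]
    linarith

end init

/-- Parameters from a majorant. -/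
theorem exists_par (t : ℕ → ℝ) (ht0 : ∀ k, 0 ≤ t k) (ht1 : ∀ k, t k ≤ 1) (hd : Dominated t) :
    ∃ (y : ℕ → ℝ) (K0 N : ℕ) (s0 : ℝ), Par t y K0 s0 ∧ 0 < N ∧ (N : ℝ) * s0 ^ 2 = 1 / 10 := by
  obtain ⟨y, hy0, hys, hdom⟩ := hd
  -- the cut
  obtain ⟨K0, hK0⟩ : ∃ K0 : ℕ, ∑' j, y j ^ 2 - 1 / 100 ≤ ∑ j ∈ Finset.range K0, y j ^ 2 := by
    have h1 := hys.hasSum.tendsto_sum_nat
    have h2 : ∀ᶠ n in atTop, ∑' j, y j ^ 2 - 1 / 100 < ∑ j ∈ Finset.range n, y j ^ 2 :=
      h1.eventually (lt_mem_nhds (by linarith))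
    obtain ⟨n, hn⟩ := h2.exists
    exact ⟨n, hn.le⟩
  obtain ⟨N, hN⟩ := exists_nat_ge
    (10 * (∑ j ∈ Finset.range K0, y j) ^ 2 + 100 * (K0 : ℝ) + 1)
  set Yh := ∑ j ∈ Finset.range K0, y j with hYh
  have hYh0 : 0 ≤ Yh := Finset.sum_nonneg fun j _ => hy0 j
  have hN1 : (1 : ℝ) ≤ N := by nlinarith [sq_nonneg Yh, Nat.cast_nonneg (α := ℝ) K0]
  have hNpos : (0 : ℝ) < N := by linarith
  set s0 := Real.sqrt (1 / (10 * N)) with hs
  have hs2 : s0 ^ 2 = 1 / (10 * N) := Real.sq_sqrt (by positivity)
  have hs0 : 0 < s0 := Real.sqrt_pos.mpr (by positivity)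
  have hNs : (N : ℝ) * s0 ^ 2 = 1 / 10 := by rw [hs2]; field_simp
  refine ⟨y, K0, N, s0, ⟨ht0, ht1, hy0, hdom, hs0, ?_, ?_, ?_, ?_⟩, by exact_mod_cast hNpos, hNs⟩
  · have : s0 ^ 2 ≤ 1 / 10 := by nlinarith [sq_nonneg s0]
    nlinarith
  · have h1 : (Yh * s0) ^ 2 ≤ (1 / 10) ^ 2 := by
      have : 10 * Yh ^ 2 * s0 ^ 2 ≤ N * s0 ^ 2 :=
        mul_le_mul_of_nonneg_right (by nlinarith [Nat.cast_nonneg (α := ℝ) K0]) (by positivity)
      rw [hNs] at this
      nlinarith
    exact (pow_le_pow_iff_left₀ (by positivity) (by norm_num) two_ne_zero).mp h1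
  · have : 100 * (K0 : ℝ) * s0 ^ 2 ≤ N * s0 ^ 2 :=
      mul_le_mul_of_nonneg_right (by nlinarith [sq_nonneg Yh]) (by positivity)
    rw [hNs] at this
    linarith
  · intro k
    have h1 : ∑ j ∈ Finset.range k, (if j < K0 then (0 : ℝ) else y j) ^ 2 =
        ∑ j ∈ (Finset.range k).filter (fun j => ¬ j < K0), y j ^ 2 := by
      rw [Finset.sum_filter]
      apply Finset.sum_congr rfl
      intro j _
      by_cases h : j < K0
      · simp [h]
      · simp [h]
    have hdisj : Disjoint ((Finset.range k).filter (fun j => ¬ j < K0)) (Finset.range K0) := by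
      rw [Finset.disjoint_left]
      intro j hj hj2
      exact (Finset.mem_filter.mp hj).2 (Finset.mem_range.mp hj2)
    have h2 : ∑ j ∈ (Finset.range k).filter (fun j => ¬ j < K0), y j ^ 2 +
        ∑ j ∈ Finset.range K0, y j ^ 2 ≤ ∑' j, y j ^ 2 := by
      rw [← Finset.sum_union hdisj]
      exact hys.sum_le_tsum _ (fun j _ => sq_nonneg _)
    rw [h1]
    linarith

/-- Part NEC. -/
theorem nec : S_Nec := by
  intro E K _ _ _ _ T hT a ha t ht0 ht1 hd hconv
  obtain ⟨y, K0, N, s0, hp, hN, hNs⟩ := exists_par t ht0 ht1 hd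
  obtain ⟨si, Ci, hinit⟩ := exists_init hT ha y K0 s0 hp.hs0 N hN hNs
  have step : ∀ k, ∀ p : {p : Cfg E × ℝ // Inv T a y K0 s0 k p.1 p.2},
      ∃ q : {p : Cfg E × ℝ // Inv T a y K0 s0 (k + 1) p.1 p.2}, ∃ u v : E, ‖u‖ = 1 ∧ ‖v‖ = 1 ∧
        q.1.1.f T a = p.1.1.f T a - ⟪p.1.1.f T a, T u v⟫ • T u v ∧
        t k * p.1.1.X ≤ |⟪p.1.1.f T a, T u v⟫| := by
    intro k p
    obtain ⟨s', C', u, v, hI, hu, hv, hf, ht⟩ := run_step hT ha hp p.2
    exact ⟨⟨(s', C'), hI⟩, u, v, hu, hv, hf, ht⟩
  choose nxt uu vv hu hv hf ht using step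
  let seq : ∀ k, {p : Cfg E × ℝ // Inv T a y K0 s0 k p.1 p.2} :=
    fun k => Nat.rec ⟨(si, Ci), hinit⟩ (fun k p => nxt k p) k
  have hseq : ∀ k, seq (k + 1) = nxt k (seq k) := fun k => rfl
  let F : ℕ → K := fun k => (seq k).1.1.f T a
  let Φ : ℕ → K := fun k => T (uu k (seq k)) (vv k (seq k))
  have hreal : IsRealization {g : K | ∃ u v : E, ‖u‖ = 1 ∧ ‖v‖ = 1 ∧ g = T u v} t F Φ := by
    intro m
    have hmem : Φ m ∈ {g : K | ∃ u v : E, ‖u‖ = 1 ∧ ‖v‖ = 1 ∧ g = T u v} :=
      ⟨uu m (seq m), vv m (seq m), hu m _, hv m _, rfl⟩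
    refine ⟨hmem, ?_, ?_⟩
    · have : Nonempty {g : K | ∃ u v : E, ‖u‖ = 1 ∧ ‖v‖ = 1 ∧ g = T u v} := ⟨⟨Φ m, hmem⟩⟩
      have h1 : (⨆ g : {g : K | ∃ u v : E, ‖u‖ = 1 ∧ ‖v‖ = 1 ∧ g = T u v},
          |⟪F m, (g : K)⟫|) ≤ (seq m).1.1.X := by
        apply ciSup_le
        rintro ⟨g, u, v, hu1, hv1, rfl⟩
        exact Cfg.bound hT ha _ u v hu1 hv1
      calc t m * (⨆ g : {g : K | ∃ u v : E, ‖u‖ = 1 ∧ ‖v‖ = 1 ∧ g = T u v}, |⟪F m, (g : K)⟫|)
          ≤ t m * (seq m).1.1.X := mul_le_mul_of_nonneg_left h1 (ht0 m)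
        _ ≤ |⟪F m, Φ m⟫| := ht m _
    · exact hf m (seq m)
  have hlim := hconv F Φ hreal
  have hlow : ∀ k, 56 / 1000 ≤ ‖F k‖ ^ 2 := fun k => norm_lower hp (seq k).2
  have hlim2 : Tendsto (fun m => ‖F m‖ ^ 2) atTop (𝓝 0) := by
    have := hlim.pow 2
    simpa using this
  have := ge_of_tendsto hlim2 (Eventually.of_forall hlow)
  norm_num at this

end Pool.Agent.W172.WG
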