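import Mathlib
import Pool.Agent.W172.WG.Defs
import Pool.Agent.W172.WG.Nec4
import Pool.Agent.W991.WG.Seq
import Pool.Agent.W346.WG.Mon
import Pool.Agent.W346.WG.Suf
import Pool.Agent.W806.WG.L2

namespace Pool.Agent.W172.WG.Final

open Pool.Agent.W172.WG

/-- For a weakness sequence `t` the Weak Greedy Algorithm with respect to the bilinear dictionary
in `L_2([0,1]^2)` converges if and only if `t` is not in Temlyakov's class `V`; equivalently, no
nonnegative square summable `y` satisfies `t k ≤ y k * (y 0 + ... + y k)`; for nonincreasing `t`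
this means that the sum of `t k / (k + 1)` diverges. -/
theorem result (t : ℕ → ℝ) (h0 : ∀ k, 0 ≤ t k) (h1 : ∀ k, t k ≤ 1) :
    (Converges Pi2 t ↔ ¬ ClassV t) ∧ (Converges Pi2 t ↔ ¬ Dominated t) ∧
      (Antitone t → (Converges Pi2 t ↔ ¬ Summable (fun k : ℕ => t k / ((k : ℝ) + 1)))) :=
  main_of Pool.Agent.W991.WG.v1 Pool.Agent.W991.WG.v2 Pool.Agent.W346.WG.mon
    Pool.Agent.W346.WG.suf Pool.Agent.W806.WG.l2 nec t h0 h1

end Pool.Agent.W172.WG.Final
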